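import Pool.Agent.H502Z.Vec.Main

set_option autoImplicit false

namespace Pool.Agent.Results.MP_5897b0_lc.AnalyticMadIff

open Pool.Agent.H502Z.Vec

/-- Let `E` be a vector space with a basis indexed by `ℕ` over a countable field `F`. There is an
infinite mad family of subspaces of `E` that is analytic in `2^E` if and only if `F` is not the
field with two elements. -/
theorem result (F : Type) [Field F] [Countable F] (E : Type) [AddCommGroup E] [Module F E]
    (b : Module.Basis ℕ F E) :
    (∃ 𝒜 : Set (Submodule F E), 𝒜.Infinite ∧ IsMadSub 𝒜 ∧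
      MeasureTheory.AnalyticSet (chi '' 𝒜)) ↔ Nat.card F ≠ 2 := main b

end Pool.Agent.Results.MP_5897b0_lc.AnalyticMadIff
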